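import Pool.Agent.X90.DD.Lin
import Pool.Agent.H387R3.ZF.W4a
import Pool.Agent.H337R2.LZ.Z

/-!
# Multiple zeta values of weight at most four
-/

set_option autoImplicit false

namespace Pool.Agent.X90.DD

open Finset Filter Topology
open Pool.Agent.Y760.ZG (mz hr hr_nil hr_cons hr_nonneg)
open Pool.Agent.X90.DB (Ad)
open Pool.Agent.X90.DC (tendsto_hr')
open Pool.Agent.H447R2.MZ (H val H_nil H_cons tendsto_H Adm)

lemma H_eq (s : List ℕ) : ∀ N, H s N = hr s (N + 1) := by
  induction s with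
  | nil => intro N; rw [H_nil, hr_nil]
  | cons a s ih =>
    intro N
    rw [H_cons, hr_cons, Finset.sum_Ico_eq_sum_range, Nat.add_sub_cancel]
    refine Finset.sum_congr rfl fun i _ => ?_
    rw [ih i, add_comm 1 i, div_eq_mul_inv, mul_comm]

lemma val_eq {w : List ℕ} (hw : Ad w) : val w = mz w := by
  have h1 : Adm w := by
    cases w with
    | nil => exact hw.elim
    | cons a l =>
      refine ⟨fun c hc => ?_, fun b t h => ?_⟩
      · rcases List.mem_cons.1 hc with rfl | hc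
        · exact le_trans (by norm_num) hw.1
        · exact hw.2 c hc
      · obtain ⟨rfl, rfl⟩ := List.cons.inj h
        exact hw.1
  refine tendsto_nhds_unique (tendsto_H w h1) ?_
  have h2 := (tendsto_add_atTop_iff_nat 1).2 (tendsto_hr' (Or.inr hw))
  refine h2.congr fun N => ?_
  rw [H_eq]

lemma mz_21 : mz [2, 1] = mz [3] := by
  rw [← val_eq (w := [2, 1]) ⟨le_rfl, by simp⟩, ← val_eq (w := [3]) ⟨by norm_num, by simp⟩]
  exact Pool.Agent.ZF.W4a.val_21

lemma mz_211 : mz [2, 1, 1] = mz [4] := by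
  rw [← val_eq (w := [2, 1, 1]) ⟨le_rfl, by simp⟩, ← val_eq (w := [4]) ⟨by norm_num, by simp⟩]
  exact Pool.Agent.ZF.W4a.val_211

lemma mz_31 : 4 * mz [3, 1] = mz [4] := by
  rw [← val_eq (w := [3, 1]) ⟨by norm_num, by simp⟩, ← val_eq (w := [4]) ⟨by norm_num, by simp⟩]
  have h1 := Pool.Agent.ZF.W4a.val_22
  have h2 := Pool.Agent.ZF.W4a.val_31
  linarith

lemma mz_22 : 4 * mz [2, 2] = 3 * mz [4] := by
  rw [← val_eq (w := [2, 2]) ⟨by norm_num, by simp⟩, ← val_eq (w := [4]) ⟨by norm_num, by simp⟩]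
  have h1 := Pool.Agent.ZF.W4a.val_22
  have h2 := Pool.Agent.ZF.W4a.val_2_val_4
  linarith

lemma mz_one (a : ℕ) : mz [a] = ∑' n : ℕ, 1 / ((n + 1 : ℕ) : ℝ) ^ a := by
  rw [mz]
  exact tsum_congr fun k => by rw [hr_nil]

lemma mz_zr (a : ℕ) : mz [a] = Pool.Agent.H337R2.zr a := by
  rw [mz_one, Pool.Agent.H337R2.zr]
  exact tsum_congr fun k => by push_cast; rfl

lemma mz_pos {a : ℕ} (ha : 2 ≤ a) : 0 < mz [a] := by
  rw [mz_one]
  have h1 : Summable fun n : ℕ => 1 / ((n + 1 : ℕ) : ℝ) ^ a :=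
    (summable_nat_add_iff 1).2 (Real.summable_one_div_nat_pow.2 (by omega))
  exact h1.tsum_pos (fun n => by positivity) 0 (by positivity)

lemma two_le_sum {p : List ℕ} (hp : Ad p) : 2 ≤ p.sum := by
  cases p with
  | nil => exact hp.elim
  | cons a l =>
    rw [List.sum_cons]
    exact le_trans hp.1 (Nat.le_add_right _ _)

lemma sum_zero {l : List ℕ} (hl : ∀ t ∈ l, 1 ≤ t) (h : l.sum = 0) : l = [] := by
  cases l with
  | nil => rfl
  | cons a l =>
    have := hl a List.mem_cons_self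
    rw [List.sum_cons] at h
    omega

lemma sum_one {l : List ℕ} (hl : ∀ t ∈ l, 1 ≤ t) (h : l.sum = 1) : l = [1] := by
  cases l with
  | nil => simp at h
  | cons a l =>
    have h1 := hl a List.mem_cons_self
    rw [List.sum_cons] at h
    have hz : l.sum = 0 := by omega
    have h2 := sum_zero (l := l) (fun t ht => hl t (List.mem_cons_of_mem _ ht)) hz
    subst h2
    simp only [List.sum_nil, add_zero] at h
    rw [h]

lemma sum_two {l : List ℕ} (hl : ∀ t ∈ l, 1 ≤ t) (h : l.sum = 2) : l = [2] ∨ l = [1, 1] := by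
  cases l with
  | nil => simp at h
  | cons a l =>
    have h1 := hl a List.mem_cons_self
    have hl' : ∀ t ∈ l, 1 ≤ t := fun t ht => hl t (List.mem_cons_of_mem _ ht)
    rw [List.sum_cons] at h
    have h2 : a = 1 ∨ a = 2 := by omega
    rcases h2 with rfl | rfl
    · rw [sum_one hl' (by omega)]
      exact Or.inr rfl
    · rw [sum_zero hl' (by omega)]
      exact Or.inl rfl

lemma ad_two {p : List ℕ} (hp : Ad p) (h : p.sum = 2) : p = [2] := by
  cases p with
  | nil => exact hp.elim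
  | cons a l =>
    obtain ⟨h1, h2⟩ := hp
    rw [List.sum_cons] at h
    have hz : l.sum = 0 := by omega
    have h3 := sum_zero h2 hz
    subst h3
    simp only [List.sum_nil, add_zero] at h
    rw [h]

lemma ad_three {p : List ℕ} (hp : Ad p) (h : p.sum = 3) : p = [3] ∨ p = [2, 1] := by
  cases p with
  | nil => exact hp.elim
  | cons a l =>
    obtain ⟨h1, h2⟩ := hp
    rw [List.sum_cons] at h
    have h3 : a = 2 ∨ a = 3 := by omega
    rcases h3 with rfl | rfl
    · rw [sum_one h2 (by omega)]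
      exact Or.inr rfl
    · rw [sum_zero h2 (by omega)]
      exact Or.inl rfl

lemma ad_four {p : List ℕ} (hp : Ad p) (h : p.sum = 4) :
    p = [4] ∨ p = [3, 1] ∨ p = [2, 2] ∨ p = [2, 1, 1] := by
  cases p with
  | nil => exact hp.elim
  | cons a l =>
    obtain ⟨h1, h2⟩ := hp
    rw [List.sum_cons] at h
    have h3 : a = 2 ∨ a = 3 ∨ a = 4 := by omega
    rcases h3 with rfl | rfl | rfl
    · rcases sum_two h2 (by omega) with rfl | rfl
      · exact Or.inr (Or.inr (Or.inl rfl))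
      · exact Or.inr (Or.inr (Or.inr rfl))
    · rw [sum_one h2 (by omega)]
      exact Or.inr (Or.inl rfl)
    · rw [sum_zero h2 (by omega)]
      exact Or.inl rfl

/-- the span of the multiple zeta values of one weight -/
noncomputable def WS (j : ℕ) : Submodule ℚ ℝ := Submodule.span ℚ (mz '' {p | (p = [] ∨ Ad p) ∧ p.sum = j})

lemma WS_zero {x : ℝ} (hx : x ∈ WS 0) : ∃ q : ℚ, x = q := by
  have h1 : WS 0 ≤ Submodule.span ℚ {(1 : ℝ)} := by
    rw [WS, Submodule.span_le]
    rintro _ ⟨p, ⟨hp, h0⟩, rfl⟩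
    rcases hp with rfl | hp
    · rw [mz]
      exact Submodule.mem_span_singleton_self _
    · have := two_le_sum hp
      omega
  obtain ⟨q, rfl⟩ := Submodule.mem_span_singleton.1 (h1 hx)
  exact ⟨q, by rw [Rat.smul_def, mul_one]⟩

lemma WS_one {x : ℝ} (hx : x ∈ WS 1) : x = 0 := by
  have h1 : WS 1 ≤ ⊥ := by
    rw [WS, Submodule.span_le]
    rintro _ ⟨p, ⟨hp, h0⟩, rfl⟩
    rcases hp with rfl | hp
    · simp at h0
    · have := two_le_sum hp
      omega
  exact (Submodule.mem_bot ℚ).1 (h1 hx)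

lemma WS_two {x : ℝ} (hx : x ∈ WS 2) : ∃ q : ℚ, x = q * mz [2] := by
  have h1 : WS 2 ≤ Submodule.span ℚ {mz [2]} := by
    rw [WS, Submodule.span_le]
    rintro _ ⟨p, ⟨hp, h0⟩, rfl⟩
    rcases hp with rfl | hp
    · simp at h0
    · rw [ad_two hp h0]
      exact Submodule.mem_span_singleton_self _
  obtain ⟨q, rfl⟩ := Submodule.mem_span_singleton.1 (h1 hx)
  exact ⟨q, by rw [Rat.smul_def]⟩

lemma WS_three {x : ℝ} (hx : x ∈ WS 3) : ∃ q : ℚ, x = q * mz [3] := by
  have h1 : WS 3 ≤ Submodule.span ℚ {mz [3]} := by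
    rw [WS, Submodule.span_le]
    rintro _ ⟨p, ⟨hp, h0⟩, rfl⟩
    rcases hp with rfl | hp
    · simp at h0
    · rcases ad_three hp h0 with rfl | rfl
      · exact Submodule.mem_span_singleton_self _
      · rw [mz_21]
        exact Submodule.mem_span_singleton_self _
  obtain ⟨q, rfl⟩ := Submodule.mem_span_singleton.1 (h1 hx)
  exact ⟨q, by rw [Rat.smul_def]⟩

/-- **the sum of the spaces of weight at most three is direct** -/
theorem direct_three (z : ℕ → ℝ) (hz : ∀ j ≤ 3, z j ∈ WS j) (h : ∑ j ∈ range 4, z j = 0) :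
    ∀ j ≤ 3, z j = 0 := by
  obtain ⟨q0, h0⟩ := WS_zero (hz 0 (by norm_num))
  have h1 := WS_one (hz 1 (by norm_num))
  obtain ⟨q2, h2⟩ := WS_two (hz 2 (by norm_num))
  obtain ⟨q3, h3⟩ := WS_three (hz 3 (by norm_num))
  have hli := Pool.Agent.LZ.Z3_linind
  rw [Fintype.linearIndependent_iff] at hli
  rw [mz_zr] at h2 h3
  have h5 := hli ![q0, q2, q3] (by
    simp only [Finset.sum_range_succ, Finset.sum_range_zero, h0, h1, h2, h3] at h
    have e : ∑ i, (![q0, q2, q3] : Fin 3 → ℚ) i • (![(1 : ℝ), Pool.Agent.H337R2.zr 2,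
        Pool.Agent.H337R2.zr 3] : Fin 3 → ℝ) i = (q0 : ℝ) * 1 + q2 * Pool.Agent.H337R2.zr 2 +
        q3 * Pool.Agent.H337R2.zr 3 := by
      rw [Fin.sum_univ_three]
      simp only [Rat.smul_def]
      rfl
    exact e.trans (by linarith))
  have g0 : q0 = 0 := by simpa using h5 0
  have g2 : q2 = 0 := by simpa using h5 1
  have g3 : q3 = 0 := by simpa using h5 2
  intro j hj
  interval_cases j
  · rw [h0, g0, Rat.cast_zero]
  · exact h1
  · rw [h2, g2, Rat.cast_zero, zero_mul]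
  · rw [h3, g3, Rat.cast_zero, zero_mul]

end Pool.Agent.X90.DD
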