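import Pool.Agent.X90.DD.Small
import Pool.Agent.X90.DC.Zth

/-!
# Different patterns of the same weight
-/

set_option autoImplicit false

namespace Pool.Agent.X90.DD

open Finset Filter Topology
open Pool.Agent.Y760.ZG (mz hr hr_nil hr_cons hr_nonneg)
open Pool.Agent.Y760.ZF (sti)
open Pool.Agent.X90.DB (Ad ix ex ex_nil ex_ne card_plane)
open Pool.Agent.X90.DC

/-! ### positivity -/

lemma hr_pos (l : List ℕ) : ∀ m : ℕ, l.length + 1 ≤ m → 0 < hr l m := by
  induction l with
  | nil => intro m _; rw [hr_nil]; exact one_pos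
  | cons s l ih =>
    intro m hm
    rw [List.length_cons] at hm
    rw [hr_cons]
    refine sum_pos' (fun j _ => div_nonneg (hr_nonneg _ _) (by positivity))
      ⟨l.length + 1, mem_Ico.2 ⟨by omega, by omega⟩, ?_⟩
    exact div_pos (ih _ le_rfl) (by positivity)

lemma mz_ne {p : List ℕ} (hp : p = [] ∨ Ad p) : mz p ≠ 0 := by
  cases p with
  | nil => rw [mz]; exact one_ne_zero
  | cons s l =>
    have hA : Ad (s :: l) := hp.resolve_left (List.cons_ne_nil _ _)
    rw [mz]
    refine ne_of_gt ((summable_hr l hA.2 hA.1).tsum_pos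
      (fun k => div_nonneg (hr_nonneg _ _) (by positivity)) l.length ?_)
    exact div_pos (hr_pos l _ le_rfl) (by positivity)

/-! ### linear independence of the words in the stuffle algebra -/

lemma words_indep (n : ℕ) : ∀ (F : Finset (List ℕ)) (c : List ℕ → ℤ), (∀ w ∈ F, w.length ≤ n) →
    (∀ w ∈ F, ∀ a ∈ w, 1 ≤ a) → (∃ w ∈ F, c w ≠ 0) →
    ∃ ts : List ℂ, ∑ w ∈ F, (c w : ℂ) * Zt ts w ≠ 0 := by
  classical
  induction n with
  | zero =>
    intro F c hF _ ⟨w, hw, hc⟩
    have h1 : ∀ w ∈ F, w = [] := fun w hw => List.eq_nil_of_length_eq_zero (by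
      have := hF w hw
      omega)
    have h2 : F = {[]} := by
      ext x
      rw [mem_singleton]
      exact ⟨h1 x, fun h => h ▸ (h1 w hw) ▸ hw⟩
    refine ⟨[], ?_⟩
    rw [h2, sum_singleton, Zt_nil, mul_one]
    rw [h1 w hw] at hc
    exact_mod_cast hc
  | succ n ih =>
    intro F c hF hF1 hc
    by_cases hcon : ∃ w ∈ F, w ≠ [] ∧ c w ≠ 0
    · obtain ⟨w, hw, hne, hcw⟩ := hcon
      obtain ⟨a, l, rfl⟩ := List.exists_cons_of_ne_nil hne
      -- the words with first letter `a`
      set Fs : ℕ → Finset (List ℕ) := fun s => (F.filter fun x => x.head? = some s).image List.tail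
        with hFs
      have hmemF : ∀ s x, x ∈ Fs s ↔ s :: x ∈ F := by
        intro s x
        rw [hFs, mem_image]
        constructor
        · rintro ⟨y, hy, rfl⟩
          rw [mem_filter] at hy
          cases y with
          | nil => simp at hy
          | cons b y =>
            rw [List.head?_cons, Option.some.injEq] at hy
            rw [List.tail_cons, ← hy.2]
            exact hy.1
        · intro h
          exact ⟨s :: x, mem_filter.2 ⟨h, rfl⟩, rfl⟩
      obtain ⟨ts, hts⟩ := ih (Fs a) (fun x => c (a :: x)) (fun x hx => by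
          have := hF _ ((hmemF a x).1 hx)
          rw [List.length_cons] at this
          omega) (fun x hx b hb => hF1 _ ((hmemF a x).1 hx) b (List.mem_cons_of_mem _ hb))
        ⟨l, (hmemF a l).2 hw, hcw⟩
      -- a polynomial in the new variable
      set Hd : Finset ℕ := F.image fun x => x.headI with hHd
      set P : Polynomial ℂ := Polynomial.C (∑ x ∈ F, (c x : ℂ) * Zt ts x) +
        ∑ x ∈ F.filter (fun x => x ≠ []), Polynomial.C ((c x : ℂ) * Zt ts x.tail) *
          Polynomial.X ^ x.headI with hP
      have ha : 1 ≤ a := hF1 _ hw a List.mem_cons_self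
      have hcoef : P.coeff a = ∑ x ∈ Fs a, (c (a :: x) : ℂ) * Zt ts x := by
        rw [hP, Polynomial.coeff_add, Polynomial.coeff_C, if_neg (by omega), zero_add,
          Polynomial.finsetSum_coeff]
        simp only [Polynomial.coeff_C_mul, Polynomial.coeff_X_pow]
        have h1 : ∑ x ∈ F.filter (fun x => x ≠ []),
            (c x : ℂ) * Zt ts x.tail * (if a = x.headI then 1 else 0) =
            ∑ x ∈ F.filter (fun x => x.head? = some a), (c x : ℂ) * Zt ts x.tail := by
          rw [sum_filter, sum_filter]
          refine sum_congr rfl fun x _ => ?_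
          cases x with
          | nil => simp
          | cons b x =>
            by_cases h : a = b
            · subst h
              simp
            · have h' : ¬ b = a := fun h0 => h h0.symm
              simp [h, h']
        rw [h1, hFs]
        rw [sum_image]
        · refine sum_congr rfl fun x hx => ?_
          rw [mem_filter] at hx
          cases x with
          | nil => simp at hx
          | cons b x =>
            rw [List.head?_cons, Option.some.injEq] at hx
            rw [List.tail_cons, hx.2]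
        · intro x hx y hy hxy
          rw [mem_coe, mem_filter] at hx hy
          cases x with
          | nil => simp at hx
          | cons b x =>
            cases y with
            | nil => simp at hy
            | cons b' y =>
              rw [List.head?_cons, Option.some.injEq] at hx hy
              rw [List.tail_cons, List.tail_cons] at hxy
              rw [hx.2, hy.2, hxy]
      have hPne : P ≠ 0 := by
        intro h0
        apply hts
        rw [← hcoef, h0, Polynomial.coeff_zero]
      obtain ⟨t, ht⟩ : ∃ t : ℂ, P.eval t ≠ 0 := by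
        by_contra h
        push Not at h
        exact hPne (Polynomial.funext fun t => by rw [h t, Polynomial.eval_zero])
      refine ⟨t :: ts, ?_⟩
      have hev : P.eval t = ∑ x ∈ F, (c x : ℂ) * Zt (t :: ts) x := by
        rw [hP, Polynomial.eval_add, Polynomial.eval_C, Polynomial.eval_finsetSum, sum_filter,
          ← sum_add_distrib]
        refine sum_congr rfl fun x _ => ?_
        cases x with
        | nil => rw [if_neg (by simp), Zt_nil, Zt_nil, add_zero]
        | cons b x =>
          rw [if_pos (List.cons_ne_nil _ _), Polynomial.eval_mul, Polynomial.eval_C,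
            Polynomial.eval_pow, Polynomial.eval_X, List.tail_cons, List.headI_cons, Zt]
          ring
      rw [← hev]
      exact ht
    · push Not at hcon
      obtain ⟨w, hw, hcw⟩ := hc
      have hw0 : w = [] := by
        by_contra h
        exact hcw (hcon w hw h)
      subst hw0
      refine ⟨[], ?_⟩
      rw [sum_eq_single []]
      · rw [Zt_nil, mul_one]
        exact_mod_cast hcw
      · intro x hx hne
        rw [hcon x hx hne, Int.cast_zero, zero_mul]
      · intro h
        exact absurd hw h

/-! ### patterns and words -/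

lemma eq_plane {k κ N : ℕ} {x y : List (Lr k)} (hxy : x ≠ y) (B : Finset (Fin k → ℕ))
    (hB : ∀ s ∈ B, s ∈ bx k κ N ∧ ix s x = ix s y) : B.card ≤ (κ * N + 1 - N) ^ (k - 1) := by
  classical
  by_cases hlen : x.length = y.length
  · obtain ⟨n, hn, hne⟩ : ∃ (n : ℕ) (hn : n < x.length), x[n] ≠ y[n]'(hlen ▸ hn) := by
      by_contra hcon
      push Not at hcon
      exact hxy (List.ext_getElem hlen fun i h1 h2 => hcon i h1)
    have hn' : n < y.length := hlen ▸ hn
    have hval : ∀ s ∈ B, (x[n]).1 + ∑ j, (x[n]).2 j * s j = (y[n]).1 + ∑ j, (y[n]).2 j * s j := by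
      intro s hs
      have h1 := (hB s hs).2
      have h2 : (ix s x)[n]'(by rw [ix, List.length_map]; exact hn) =
          (ix s y)[n]'(by rw [ix, List.length_map]; exact hn') := by
        simp only [h1]
      simpa [ix] using h2
    rcases B.eq_empty_or_nonempty with h0 | ⟨s0, hs0⟩
    · rw [h0]
      simp
    have hu : (fun j => (((x[n]).2 j : ℕ) : ℤ) - ((y[n]).2 j : ℕ)) ≠ 0 := by
      intro h0
      apply hne
      have h1 : (x[n]).2 = (y[n]).2 := by
        funext j
        have := congrFun h0 j
        simp only [Pi.zero_apply] at this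
        omega
      have h2 := hval s0 hs0
      rw [h1] at h2
      exact Prod.ext (by omega) h1
    refine le_trans (card_le_card fun s hs => ?_) (card_plane N (κ * N) _ hu
      (((y[n]).1 : ℤ) - (x[n]).1))
    rw [mem_filter]
    refine ⟨(hB s hs).1, ?_⟩
    have h1 := hval s hs
    have h2 : (((x[n]).1 + ∑ j, (x[n]).2 j * s j : ℕ) : ℤ) =
        (((y[n]).1 + ∑ j, (y[n]).2 j * s j : ℕ) : ℤ) := by rw [h1]
    push_cast at h2
    simp only [sub_mul, sum_sub_distrib]
    linarith
  · have : B = ∅ := by
      rw [eq_empty_iff_forall_notMem]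
      intro s hs
      apply hlen
      have h1 := congrArg List.length (hB s hs).2
      rw [ix, ix, List.length_map, List.length_map] at h1
      exact h1
    rw [this]
    simp

lemma ex_Zt (ts : List ℂ) (u : List ℕ) : ex (Zt ts) u = Zt ts u := by
  by_cases h : u = []
  · rw [h, ex_nil, Zt_nil]
  · rw [ex_ne _ h]

/-- **different patterns of the same weight are independent for almost all tuples** -/
theorem dist (k r : ℕ) (w : Fin r → List (Lr k)) (hw : ∀ i, Ge (w i)) (hinj : Function.Injective w)
    (hwt : ∀ i j (s : Fin k → ℕ), (ix s (w i)).sum = (ix s (w j)).sum)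
    (hPi : ∀ i j q q', q <+: fpx (w i) → q' <+: fpx (w j) → q.sum = q'.sum → q = q') (κ : ℕ) :
    ∃ K : ℕ, ∀ C : ℝ, ∃ N0 : ℕ, ∀ N : ℕ, N0 ≤ N → ∀ B : Finset (Fin k → ℕ),
      (∀ s ∈ B, (∀ j, N ≤ s j ∧ s j ≤ κ * N) ∧
        ∃ c : Fin r → ℤ, c ≠ 0 ∧ (∀ i, |(c i : ℝ)| ≤ C ^ N) ∧
          ∑ i, (c i : ℝ) * mz (ix s (w i)) = 0) →
      B.card ≤ K * N ^ (k - 1) := by
  classical
  obtain ⟨m, idx, cc, p, v, hpv, hexp, K, hK⟩ := lin k r w hw κ
  refine ⟨K + r * r * κ ^ (k - 1), fun C => ?_⟩
  obtain ⟨N0, hN0⟩ := hK C
  refine ⟨N0 + 2, fun N hN B hB => ?_⟩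
  -- tuples with equal words
  set B2 : Finset (Fin k → ℕ) := B.filter fun s => ¬ Function.Injective fun i => ix s (w i) with hB2
  have hcard2 : B2.card ≤ r * r * κ ^ (k - 1) * N ^ (k - 1) := by
    have h1 : B2 ⊆ (univ : Finset (Fin r × Fin r)).biUnion fun q =>
        if q.1 = q.2 then ∅ else B.filter fun s => ix s (w q.1) = ix s (w q.2) := by
      intro s hs
      rw [hB2, mem_filter, Function.Injective] at hs
      obtain ⟨hsB, hs⟩ := hs
      push Not at hs
      obtain ⟨i, j, hij, hne⟩ := hs
      rw [mem_biUnion]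
      refine ⟨(i, j), mem_univ _, ?_⟩
      rw [if_neg hne, mem_filter]
      exact ⟨hsB, hij⟩
    refine (card_le_card h1).trans (card_biUnion_le.trans ?_)
    have h2 : ∀ q ∈ (univ : Finset (Fin r × Fin r)), (if q.1 = q.2 then
        (∅ : Finset (Fin k → ℕ)) else B.filter fun s => ix s (w q.1) = ix s (w q.2)).card ≤
        κ ^ (k - 1) * N ^ (k - 1) := by
      intro q _
      split_ifs with h
      · simp
      · refine (eq_plane (κ := κ) (N := N) (fun h0 => h (hinj h0)) _ fun s hs => ?_).trans ?_
        · rw [mem_filter] at hs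
          exact ⟨mem_bx.2 (hB s hs.1).1, hs.2⟩
        · rw [← mul_pow]
          exact Nat.pow_le_pow_left (by omega) _
    refine (sum_le_sum h2).trans ?_
    rw [sum_const, card_univ, Fintype.card_prod, Fintype.card_fin, smul_eq_mul, mul_assoc,
      mul_assoc, mul_assoc]
  rw [← card_filter_add_card_filter_not (s := B) (fun s => Function.Injective fun i => ix s (w i)),
    add_mul]
  refine Nat.add_le_add (hN0 N (by omega) _ fun s hs => ?_) hcard2
  rw [mem_filter] at hs
  obtain ⟨hsB, hsi⟩ := hs
  obtain ⟨hs1, c, hc, hcC, hc0⟩ := hB s hsB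
  have hs2 : ∀ j, 2 ≤ s j := fun j => le_trans (by omega) (hs1 j).1
  refine ⟨hs1, c, hcC, hc0, ?_⟩
  by_contra hcon
  push Not at hcon
  -- all the coefficients vanish
  have hzero : ∀ u : List ℕ, ∑ j with ix s (v j) = u, (c (idx j) * cc j) = 0 := by
    intro u
    rcases (univ.filter fun j => ix s (v j) = u).eq_empty_or_nonempty with he | ⟨j0, hj0⟩
    · rw [he, sum_empty]
    have h1 : ∀ j ∈ univ.filter fun j => ix s (v j) = u, p j = p j0 := by
      intro j hj
      refine hPi _ _ _ _ (hpv j).2.1 (hpv j0).2.1 ?_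
      have g1 := (hpv j).2.2.2 s
      have g2 := (hpv j0).2.2.2 s
      rw [mem_filter] at hj hj0
      rw [hj.2] at g1
      rw [hj0.2, hwt (idx j0) (idx j)] at g2
      omega
    have h2 := hcon u
    rw [sum_congr rfl fun j hj => by rw [h1 j hj], ← sum_mul] at h2
    rcases mul_eq_zero.1 h2 with h3 | h3
    · exact_mod_cast h3
    · exact absurd h3 (mz_ne (hpv j0).1)
  have hall : ∀ ts : List ℂ, ∑ i, (c i : ℂ) * Zt ts (ix s (w i)) = 0 := by
    intro ts
    have h1 := hexp ℂ (Zt ts) (fun u v _ _ => Zt_mul ts u v) s hs2 c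
    simp only [ex_Zt] at h1
    rw [h1]
    rw [← sum_fiberwise_of_maps_to (s := univ) (t := univ.image fun j => ix s (v j))
      (g := fun j => ix s (v j)) (fun j _ => mem_image_of_mem _ (mem_univ j))]
    refine sum_eq_zero fun u _ => ?_
    rcases (univ.filter fun j => ix s (v j) = u).eq_empty_or_nonempty with he | ⟨j0, hj0⟩
    · rw [he, sum_empty]
    have h2 : ∀ j ∈ univ.filter fun j => ix s (v j) = u,
        ((c (idx j) * cc j : ℤ) : ℂ) * (Zt ts (p j) * Zt ts (ix s (v j))) =
        ((c (idx j) * cc j : ℤ) : ℂ) * (Zt ts (p j0) * Zt ts u) := by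
      intro j hj
      have h3 : p j = p j0 := by
        refine hPi _ _ _ _ (hpv j).2.1 (hpv j0).2.1 ?_
        have g1 := (hpv j).2.2.2 s
        have g2 := (hpv j0).2.2.2 s
        rw [mem_filter] at hj hj0
        rw [hj.2] at g1
        rw [hj0.2, hwt (idx j0) (idx j)] at g2
        omega
      rw [mem_filter] at hj
      rw [h3, hj.2]
    rw [sum_congr rfl h2, ← sum_mul]
    have h4 := hzero u
    have h5 : ∑ j with ix s (v j) = u, ((c (idx j) * cc j : ℤ) : ℂ) = 0 := by
      exact_mod_cast h4
    rw [h5, zero_mul]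
  apply hc
  by_contra hne
  obtain ⟨i0, hi0⟩ : ∃ i, c i ≠ 0 := by
    by_contra h
    push Not at h
    exact hne (funext h)
  obtain ⟨ℓ, hℓ⟩ : ∃ ℓ : ℕ, ∀ i, (ix s (w i)).length ≤ ℓ :=
    ⟨∑ i, (ix s (w i)).length, fun i => single_le_sum (f := fun i => (ix s (w i)).length)
      (fun _ _ => Nat.zero_le _) (mem_univ i)⟩
  set d : List ℕ → ℤ := fun u => ∑ i with ix s (w i) = u, c i with hd
  have hdi : ∀ i, d (ix s (w i)) = c i := by
    intro i
    have h1 : (univ.filter fun i' => ix s (w i') = ix s (w i)) = {i} := by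
      ext i'
      rw [mem_filter, mem_singleton]
      exact ⟨fun h => hsi h.2, fun h => ⟨mem_univ _, by rw [h]⟩⟩
    simp only [hd]
    rw [h1, sum_singleton]
  obtain ⟨ts, hts⟩ := words_indep ℓ (univ.image fun i => ix s (w i)) d (fun x hx => by
      rw [mem_image] at hx
      obtain ⟨i, -, rfl⟩ := hx
      exact hℓ i) (fun x hx a ha => by
      rw [mem_image] at hx
      obtain ⟨i, -, rfl⟩ := hx
      exact ix_pos (fun j => le_trans (by norm_num) (hs2 j)) (hw i).2 a ha)
    ⟨ix s (w i0), mem_image_of_mem _ (mem_univ _), by rw [hdi]; exact hi0⟩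
  apply hts
  rw [sum_image fun i _ j _ h => hsi h]
  simp only [hdi]
  exact hall ts

end Pool.Agent.X90.DD
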