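import Pool.Agent.X90.DC.Gen2

/-!
# The decomposition with weights and the count of tuples with relations
-/

set_option autoImplicit false

namespace Pool.Agent.X90.DC

open Finset Pool.Agent.Y760.ZF
open Pool.Agent.Y760.ZG (mz)
open Pool.Agent.X90.DB (Ad ex ex_nil ex_ne ad_ne ix GT Lt Lt_zero card_noGT Lt_mono)

lemma sti_sum (u v : List ℕ) : ∀ x ∈ sti u v, x.sum = u.sum + v.sum := by
  induction u, v using sti.induct with
  | case1 v =>
    intro x hx
    rw [sti, List.mem_singleton] at hx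
    subst hx
    simp
  | case2 i u =>
    intro x hx
    rw [sti, List.mem_singleton] at hx
    subst hx
    simp
  | case3 i u j v ih1 ih2 ih3 =>
    intro x hx
    rw [sti, List.mem_append, List.mem_append, List.mem_map, List.mem_map, List.mem_map] at hx
    rcases hx with (⟨x', hx', rfl⟩ | ⟨x', hx', rfl⟩) | ⟨x', hx', rfl⟩
    · have := ih1 x' hx'
      simp only [List.sum_cons] at this ⊢
      omega
    · have := ih2 x' hx'
      simp only [List.sum_cons] at this ⊢
      omega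
    · have := ih3 x' hx'
      simp only [List.sum_cons] at this ⊢
      omega

lemma psti_weight {k : ℕ} (u v : List (Lr k)) (x : List (Lr k)) (hx : x ∈ psti u v)
    (s : Fin k → ℕ) : (ix s x).sum = (ix s u).sum + (ix s v).sum := by
  refine sti_sum _ _ _ ?_
  rw [ix_psti]
  exact List.mem_map_of_mem hx

lemma split_mem {k : ℕ} {p : List ℕ} {v : List (Lr k)} {R : List (List ℕ × List (Lr k))}
    (hR : ∀ (A : Type) [AddCommMonoid A] (F : List (Lr k) → A),
      ((psti (fp p) v).map F).sum = F (fp p ++ v) + (R.map fun e => F (fp e.1 ++ e.2)).sum) :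
    ∀ e ∈ R, fp e.1 ++ e.2 ∈ psti (fp p) v := by
  classical
  intro e he
  have h1 := hR ℕ fun x => if x = fp e.1 ++ e.2 then 1 else 0
  by_contra hcon
  have h2 : ((psti (fp p) v).map fun x => if x = fp e.1 ++ e.2 then 1 else 0).sum = 0 := by
    rw [List.sum_eq_zero_iff]
    intro a ha
    rw [List.mem_map] at ha
    obtain ⟨x, hx, rfl⟩ := ha
    rw [if_neg]
    rintro rfl
    exact hcon hx
  rw [h2] at h1
  have h3 : (1 : ℕ) ≤ (R.map fun e' => if fp e'.1 ++ e'.2 = fp e.1 ++ e.2 then 1 else 0).sum := by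
    refine List.single_le_sum (fun _ _ => Nat.zero_le _) _ ?_
    rw [List.mem_map]
    exact ⟨e, he, if_pos rfl⟩
  omega

/-- **the decomposition** -/
lemma dec3 {k : ℕ} (n : ℕ) : ∀ p : List ℕ, p.length ≤ n → (p = [] ∨ Ad p) → ∀ v : List (Lr k), Gd v →
    ∃ L : List (ℤ × List ℕ × List (Lr k)),
      (∀ e ∈ L, (e.2.1 = [] ∨ Ad e.2.1) ∧ e.2.1 <+: p ∧ Gd e.2.2 ∧
        ∀ s : Fin k → ℕ, e.2.1.sum + (ix s e.2.2).sum = p.sum + (ix s v).sum) ∧
      ∀ (A : Type) [CommRing A] (Z : List ℕ → A),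
        (∀ u v, Ad u → Ad v → Z u * Z v = ((sti u v).map Z).sum) →
        ∀ s : Fin k → ℕ, (∀ j, 2 ≤ s j) → ex Z (p ++ ix s v) =
          (L.map fun e => (e.1 : A) * (ex Z e.2.1 * ex Z (ix s e.2.2))).sum := by
  induction n with
  | zero =>
    intro p hp _ v hv
    have : p = [] := List.eq_nil_of_length_eq_zero (by omega)
    subst this
    refine ⟨[(1, [], v)], fun e he => ?_, fun A _ Z hZ s hs => ?_⟩
    · rw [List.mem_singleton] at he
      subst he
      exact ⟨Or.inl rfl, List.prefix_refl _, hv, fun s => rfl⟩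
    · simp [ex_nil]
  | succ n ih =>
    intro p hp hpA v hv
    by_cases hv0 : v = []
    · subst hv0
      refine ⟨[(1, p, [])], fun e he => ?_, fun A _ Z hZ s hs => ?_⟩
      · rw [List.mem_singleton] at he
        subst he
        exact ⟨hpA, List.prefix_refl _, hv, fun s => rfl⟩
      · have : ix s ([] : List (Lr k)) = [] := rfl
        simp [this, ex_nil]
    · have hp1 : ∀ a ∈ p, 1 ≤ a := by
        rcases hpA with rfl | h
        · simp
        · exact h.pos
      obtain ⟨R, hR, hsum⟩ := psti_split p hp1 v hv hv0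
      have h1 : ∀ e : List ℕ × List (Lr k), e ∈ R → ∃ L : List (ℤ × List ℕ × List (Lr k)),
          (∀ e' ∈ L, (e'.2.1 = [] ∨ Ad e'.2.1) ∧ e'.2.1 <+: e.1 ∧ Gd e'.2.2 ∧
            ∀ s : Fin k → ℕ, e'.2.1.sum + (ix s e'.2.2).sum = e.1.sum + (ix s e.2).sum) ∧
          ∀ (A : Type) [CommRing A] (Z : List ℕ → A),
            (∀ u v, Ad u → Ad v → Z u * Z v = ((sti u v).map Z).sum) →
            ∀ s : Fin k → ℕ, (∀ j, 2 ≤ s j) → ex Z (e.1 ++ ix s e.2) =
              (L.map fun e => (e.1 : A) * (ex Z e.2.1 * ex Z (ix s e.2.2))).sum := by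
        intro e he
        obtain ⟨⟨q, hq, hpe⟩, hg⟩ := hR e he
        refine ih e.1 ?_ ?_ e.2 hg
        · have := List.length_pos_iff.2 hq
          rw [hpe, List.length_append] at hp
          omega
        · rcases hpA with h | h
          · rw [hpe] at h
            exact Or.inl (List.append_eq_nil_iff.1 h).1
          · rw [hpe] at h
            exact ad_of_prefix h
      choose! Lf hLf1 hLf2 using h1
      refine ⟨(1, p, v) :: R.flatMap fun e => (Lf e).map fun e' => (-e'.1, e'.2),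
        fun e he => ?_, fun A _ Z hZ s hs => ?_⟩
      · rcases List.mem_cons.1 he with rfl | he
        · exact ⟨hpA, List.prefix_refl _, hv, fun s => rfl⟩
        · rw [List.mem_flatMap] at he
          obtain ⟨e1, he1, he⟩ := he
          rw [List.mem_map] at he
          obtain ⟨e2, he2, rfl⟩ := he
          obtain ⟨g1, g2, g3, g4⟩ := hLf1 e1 he1 e2 he2
          refine ⟨g1, g2.trans ?_, g3, fun s => (g4 s).trans ?_⟩
          · obtain ⟨⟨q, hq, hpe⟩, hg⟩ := hR e1 he1
            rw [hpe]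
            exact List.prefix_append _ _
          · have h5 := psti_weight _ _ _ (split_mem hsum e1 he1) s
            rw [ix_append, ix_fp, List.sum_append, ix_fp] at h5
            exact h5
      · have hvA : ix s v = [] ∨ Ad (ix s v) := ix_Ad hs hv
        have h2 := ex_mul' hZ hpA hvA
        have h3 : sti p (ix s v) = (psti (fp p) v).map (ix s) := by
          rw [← ix_psti, ix_fp]
        rw [h3, List.map_map] at h2
        have h4 := hsum A (ex Z ∘ ix s)
        rw [h4] at h2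
        simp only [Function.comp, ix_append, ix_fp] at h2
        have h5 : ∀ R' : List (List ℕ × List (Lr k)), (∀ e ∈ R', e ∈ R) →
            ((R'.flatMap fun e => (Lf e).map fun e' => (-e'.1, e'.2)).map
              fun e => (e.1 : A) * (ex Z e.2.1 * ex Z (ix s e.2.2))).sum =
            -(R'.map fun e => ex Z (e.1 ++ ix s e.2)).sum := by
          intro R'
          induction R' with
          | nil => simp
          | cons e R' ihR =>
            intro hR'
            rw [List.flatMap_cons, List.map_append, List.sum_append,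
              ihR fun e he => hR' e (List.mem_cons_of_mem _ he), List.map_cons, List.sum_cons,
              neg_add]
            congr 1
            rw [hLf2 e (hR' e List.mem_cons_self) A Z hZ s hs, List.map_map]
            generalize Lf e = T
            induction T with
            | nil => simp
            | cons a T ihT =>
              rw [List.map_cons, List.sum_cons, ihT, List.map_cons, List.sum_cons]
              simp only [Function.comp]
              push_cast
              ring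
        rw [List.map_cons, List.sum_cons, h5 R fun e he => he, h2]
        push_cast
        ring

/-- **few tuples with relations** -/
theorem count_bd (k κ M0 R ℓ q : ℕ) (κ' : ℝ) (hκ' : 0 ≤ κ') : ∃ K : ℕ, ∀ M ≤ M0,
    ∀ v : Fin (M + 1) → ℂ, LinearIndependent ℚ v → ∀ C' : ℝ, 1 ≤ C' → ∃ N0 : ℕ, ∀ N : ℕ, N0 ≤ N →
    ∀ B : Finset (Fin k → ℕ), (∀ s ∈ B, (∀ j, N ≤ s j ∧ s j ≤ κ * N) ∧
      Bd N (M + 1) R ℓ κ' C' q v (Lt q s)) → B.card ≤ K * N ^ (k - 1) := by
  classical
  set m : ℕ := 3 ^ M0 with hm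
  set T : ℕ := ∑ M ∈ range (M0 + 1), Tn M q with hT
  set Q : ℕ := T + m * q + q with hQ
  refine ⟨(2 * Q + 1) ^ (1 + m * k) * κ ^ (k - 1), fun M hM v hv C' hC' => ?_⟩
  obtain ⟨n0, hno⟩ := no_many M R ℓ κ' C' q hκ' hC'
  have hTM : Tn M q ≤ T := by
    rw [hT]
    exact single_le_sum (f := fun M => Tn M q) (fun _ _ => Nat.zero_le _)
      (mem_range.2 (Nat.lt_succ_of_le hM))
  refine ⟨n0 + 1, fun N hN B hB => ?_⟩
  have hBsub : B ⊆ Fintype.piFinset fun _ : Fin k => Finset.Icc N (κ * N) := by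
    intro s hs
    rw [Fintype.mem_piFinset]
    exact fun j => mem_Icc.2 ((hB s hs).1 j)
  have h1 := card_noGT Q N (κ * N) B hBsub m (fun s hs hGT => by
    have hs1 : ∀ i j, N ≤ s i j := fun i j => ((hB _ (hs i)).1 j).1
    refine hno N (by omega) v hv (Fin m) (fun i => Lt q (s i)) ?_ ?_ (fun i => ?_) fun i => ?_
    · rw [Fintype.card_fin, hm]
      exact Nat.pow_le_pow_right (by norm_num) hM
    · refine GP.mono (gp hGT (T := T) ?_ ?_) hTM
      · rw [Fintype.card_fin, hQ]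
        omega
      · rw [hQ]
        omega
    · exact Lt_zero fun j => le_trans (by omega) (hs1 i j)
    · exact (hB _ (hs i)).2)
  refine h1.trans ?_
  rw [mul_assoc, ← mul_pow]
  refine Nat.mul_le_mul_left _ (Nat.pow_le_pow_left ?_ _)
  omega

/-- **linear relations**: for almost all tuples a relation splits according to the words that start with large
letters -/
theorem lin (k r : ℕ) (w : Fin r → List (Lr k)) (hw : ∀ i, Ge (w i)) (κ : ℕ) :
    ∃ (m : ℕ) (idx : Fin m → Fin r) (cc : Fin m → ℤ) (p : Fin m → List ℕ)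
      (v : Fin m → List (Lr k)),
      (∀ j, (p j = [] ∨ Ad (p j)) ∧ p j <+: fpx (w (idx j)) ∧ Gd (v j) ∧
        ∀ s : Fin k → ℕ, (p j).sum + (ix s (v j)).sum = (ix s (w (idx j))).sum) ∧
      (∀ (A : Type) [CommRing A] (Z : List ℕ → A),
        (∀ u v, Ad u → Ad v → Z u * Z v = ((sti u v).map Z).sum) →
        ∀ s : Fin k → ℕ, (∀ j, 2 ≤ s j) → ∀ c : Fin r → ℤ,
          ∑ i, (c i : A) * ex Z (ix s (w i)) =
            ∑ j, ((c (idx j) * cc j : ℤ) : A) * (ex Z (p j) * ex Z (ix s (v j)))) ∧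
      ∃ K : ℕ, ∀ C : ℝ, ∃ N0 : ℕ, ∀ N : ℕ, N0 ≤ N → ∀ B : Finset (Fin k → ℕ),
        (∀ s ∈ B, (∀ j, N ≤ s j ∧ s j ≤ κ * N) ∧
          ∃ c : Fin r → ℤ, (∀ i, |(c i : ℝ)| ≤ C ^ N) ∧ ∑ i, (c i : ℝ) * mz (ix s (w i)) = 0 ∧
            ∃ u : List ℕ, ∑ j with ix s (v j) = u, ((c (idx j) * cc j : ℤ) : ℝ) * mz (p j) ≠ 0) →
        B.card ≤ K * N ^ (k - 1) := by
  classical
  -- the decompositions
  have h1 : ∀ i, ∃ L : List (ℤ × List ℕ × List (Lr k)),
      (∀ e ∈ L, (e.2.1 = [] ∨ Ad e.2.1) ∧ e.2.1 <+: fpx (w i) ∧ Gd e.2.2 ∧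
        ∀ s : Fin k → ℕ, e.2.1.sum + (ix s e.2.2).sum = (ix s (w i)).sum) ∧
      ∀ (A : Type) [CommRing A] (Z : List ℕ → A),
        (∀ u v, Ad u → Ad v → Z u * Z v = ((sti u v).map Z).sum) →
        ∀ s : Fin k → ℕ, (∀ j, 2 ≤ s j) → ex Z (ix s (w i)) =
          (L.map fun e => (e.1 : A) * (ex Z e.2.1 * ex Z (ix s e.2.2))).sum := by
    intro i
    obtain ⟨v, h2, h3⟩ := exists_prefix2 (w i) (hw i).2
    have hge : Ge (fp (fpx (w i)) ++ v) := by
      rw [← h3]
      exact hw i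
    have h4 : ∀ s : Fin k → ℕ, ix s (w i) = fpx (w i) ++ ix s v := by
      intro s
      conv_lhs => rw [h3]
      rw [ix_append, ix_fp]
    obtain ⟨L, hL1, hL2⟩ := dec3 (fpx (w i)).length (fpx (w i)) le_rfl (ge_prefix hge) v h2
    refine ⟨L, fun e he => ?_, fun A _ Z hZ s hs => ?_⟩
    · obtain ⟨g1, g2, g3, g4⟩ := hL1 e he
      refine ⟨g1, g2, g3, fun s => ?_⟩
      rw [g4 s, h4 s, List.sum_append]
    · rw [h4 s]
      exact hL2 A Z hZ s hs
  choose L hL1 hL2 using h1
  set J : Type := Σ i : Fin r, Fin (L i).length with hJ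
  set m : ℕ := Fintype.card J with hm
  let e : J ≃ Fin m := Fintype.equivFin J
  let val : Fin m → ℤ × List ℕ × List (Lr k) := fun j => (L (e.symm j).1).get (e.symm j).2
  have hval : ∀ j, ((val j).2.1 = [] ∨ Ad (val j).2.1) ∧ (val j).2.1 <+: fpx (w (e.symm j).1) ∧
      Gd (val j).2.2 ∧ ∀ s : Fin k → ℕ,
        (val j).2.1.sum + (ix s (val j).2.2).sum = (ix s (w (e.symm j).1)).sum :=
    fun j => hL1 _ _ (List.get_mem _ _)
  have hexp : ∀ (A : Type) [CommRing A] (Z : List ℕ → A),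
        (∀ u v, Ad u → Ad v → Z u * Z v = ((sti u v).map Z).sum) →
        ∀ s : Fin k → ℕ, (∀ j, 2 ≤ s j) → ∀ c : Fin r → ℤ,
          ∑ i, (c i : A) * ex Z (ix s (w i)) =
            ∑ j, ((c (e.symm j).1 * (val j).1 : ℤ) : A) *
              (ex Z (val j).2.1 * ex Z (ix s (val j).2.2)) := by
    intro A _ Z hZ s hs c
    rw [← e.sum_comp, Fintype.sum_sigma]
    refine sum_congr rfl fun i _ => ?_
    rw [hL2 i A Z hZ s hs, sum_list, mul_sum]
    refine sum_congr rfl fun j _ => ?_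
    have q1 : val (e ⟨i, j⟩) = (L i).get j := by
      show (L (e.symm (e ⟨i, j⟩)).1).get (e.symm (e ⟨i, j⟩)).2 = _
      rw [e.symm_apply_apply]
    have q2 : (e.symm (e ⟨i, j⟩)).1 = i := by rw [e.symm_apply_apply]
    rw [q1, q2]
    push_cast
    ring
  refine ⟨m, fun j => (e.symm j).1, fun j => (val j).1, fun j => (val j).2.1,
    fun j => (val j).2.2, hval, hexp, ?_⟩
  -- the constants
  obtain ⟨K0, hK0⟩ : ∃ K0 : ℕ, ∀ i, ∀ u ∈ (val i).2.2, u.1 ≤ K0 ∧ ∀ j, u.2 j ≤ K0 := by
    refine ⟨∑ i, ((val i).2.2.map fun u => u.1 + ∑ j, u.2 j).sum, fun i u hu => ?_⟩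
    have h1 : ((val i).2.2.map fun u => u.1 + ∑ j, u.2 j).sum ≤
        ∑ i, ((val i).2.2.map fun u => u.1 + ∑ j, u.2 j).sum :=
      single_le_sum (f := fun i => ((val i).2.2.map fun u => u.1 + ∑ j, u.2 j).sum)
        (fun _ _ => Nat.zero_le _) (mem_univ i)
    have h2 : u.1 + ∑ j, u.2 j ≤ ((val i).2.2.map fun u => u.1 + ∑ j, u.2 j).sum :=
      List.single_le_sum (fun _ _ => Nat.zero_le _) _ (List.mem_map_of_mem hu)
    refine ⟨by omega, fun j => ?_⟩
    have h3 : u.2 j ≤ ∑ j, u.2 j :=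
      single_le_sum (f := fun j => u.2 j) (fun _ _ => Nat.zero_le _) (mem_univ j)
    omega
  obtain ⟨ℓ, hℓ⟩ : ∃ ℓ : ℕ, ∀ i, (val i).2.2.length ≤ ℓ :=
    ⟨∑ i, (val i).2.2.length, fun i => single_le_sum (f := fun i => (val i).2.2.length)
      (fun _ _ => Nat.zero_le _) (mem_univ i)⟩
  obtain ⟨M, hM, g, hv, Δ, hΔ, ρ, hρ⟩ := indep'
    (fun q : Option (Fin m) => ((mz (q.elim [] fun j => (val j).2.1) : ℝ) : ℂ))
    ⟨none, by simp [mz]⟩
  obtain ⟨K, hK⟩ := count_bd k κ M m ℓ K0 ((K0 * (1 + k * κ) : ℕ) : ℝ) (Nat.cast_nonneg _)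
  refine ⟨K, fun C => ?_⟩
  set S : ℝ := ∑ j : Fin m, ∑ μ, |((val j).1 : ℝ)| * |(ρ (some j) μ : ℝ)| with hS
  have hS0 : 0 ≤ S := by positivity
  have hC0 : 0 ≤ |C| := abs_nonneg C
  obtain ⟨N0, hN0⟩ := hK M le_rfl _ hv ((1 + |C|) * (1 + S)) (by nlinarith)
  refine ⟨N0 + 2, fun N hN B hB => hN0 N (by omega) B fun s hs => ?_⟩
  obtain ⟨hs1, c, hcC, hc0, u, hu⟩ := hB s hs
  have hs2 : ∀ j, 2 ≤ s j := fun j => le_trans (by omega) (hs1 j).1
  refine ⟨hs1, ?_⟩
  -- the relation
  set a : List ℕ → Fin (M + 1) → ℤ := fun x μ => ∑ j with ix s (val j).2.2 = x,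
    c (e.symm j).1 * (val j).1 * ρ (some j) μ with ha
  have hav : ∀ x, ∑ μ, (a x μ : ℂ) * ((mz ((g μ).elim [] fun j => (val j).2.1) : ℝ) : ℂ) =
      ∑ j with ix s (val j).2.2 = x, ((c (e.symm j).1 * (val j).1 : ℤ) : ℂ) *
        ((Δ : ℂ) * ((mz (val j).2.1 : ℝ) : ℂ)) := by
    intro x
    simp only [ha]
    push_cast
    simp only [sum_mul]
    rw [sum_comm]
    refine sum_congr rfl fun j _ => ?_
    have h2 := hρ (some j)
    simp only [Option.elim_some] at h2
    rw [h2, mul_sum]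
    exact sum_congr rfl fun μ _ => by ring
  refine ⟨univ.image fun j => ix s (val j).2.2, a, ?_, fun x hx => ?_, fun x hx μ => ?_, ?_, ?_⟩
  · exact card_image_le.trans (by rw [card_univ, Fintype.card_fin])
  · rw [mem_image] at hx
    obtain ⟨j, -, rfl⟩ := hx
    have h2 := ix_Cl hs1 (by omega) (hval j).2.2.1 (hK0 j) (hℓ j)
    exact ⟨h2.1, ⟨h2.2.1, h2.2.2⟩, ix_Hd s (hval j).2.2.1 (hK0 j)⟩
  · simp only [ha]
    push_cast
    have hCN : ∀ i, |(c i : ℝ)| ≤ |C| ^ N := fun i =>
      (hcC i).trans ((le_abs_self _).trans (abs_pow _ _).le)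
    calc |∑ j with ix s (val j).2.2 = x, (c (e.symm j).1 : ℝ) * (val j).1 * ρ (some j) μ| ≤
        ∑ j with ix s (val j).2.2 = x, |C| ^ N * (|((val j).1 : ℝ)| * |(ρ (some j) μ : ℝ)|) := by
          refine (abs_sum_le_sum_abs _ _).trans (sum_le_sum fun j _ => ?_)
          rw [abs_mul, abs_mul, mul_assoc]
          exact mul_le_mul_of_nonneg_right (hCN _) (by positivity)
      _ ≤ ∑ j, |C| ^ N * (|((val j).1 : ℝ)| * |(ρ (some j) μ : ℝ)|) :=
          sum_le_sum_of_subset_of_nonneg (filter_subset _ _) fun _ _ _ => by positivity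
      _ ≤ |C| ^ N * S := by
          rw [← mul_sum]
          refine mul_le_mul_of_nonneg_left (sum_le_sum fun j _ => ?_) (by positivity)
          exact single_le_sum (f := fun μ => |((val j).1 : ℝ)| * |(ρ (some j) μ : ℝ)|)
            (fun _ _ => by positivity) (mem_univ μ)
      _ ≤ ((1 + |C|) * (1 + S)) ^ N := by
          rw [mul_pow]
          refine mul_le_mul (pow_le_pow_left₀ hC0 (by linarith) _) ?_ hS0 (by positivity)
          exact (by linarith : S ≤ 1 + S).trans (le_self_pow₀ (by linarith) (by omega))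
  · by_contra hcon
    push Not at hcon
    apply hu
    by_cases hmem : u ∈ univ.image fun j => ix s (val j).2.2
    · have h2 := hav u
      rw [sum_eq_zero fun μ _ => by rw [hcon u hmem μ, Int.cast_zero, zero_mul]] at h2
      have h3 : (Δ : ℂ) * ((∑ j with ix s (val j).2.2 = u,
          ((c (e.symm j).1 * (val j).1 : ℤ) : ℝ) * mz (val j).2.1 : ℝ) : ℂ) = 0 := by
        rw [h2]
        push_cast
        rw [mul_sum]
        exact sum_congr rfl fun j _ => by ring
      rcases mul_eq_zero.1 h3 with h4 | h4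
      · exact absurd (by exact_mod_cast h4) hΔ
      · exact_mod_cast h4
    · refine sum_eq_zero fun j hj => ?_
      rw [mem_filter] at hj
      exact absurd (mem_image.2 ⟨j, mem_univ _, hj.2⟩) hmem
  · have h2 := hexp ℂ (fun x => ((mz x : ℝ) : ℂ)) mz_stuffle_C s hs2 c
    simp only [ex_mz] at h2
    have h3 : ∑ i, (c i : ℂ) * ((mz (ix s (w i)) : ℝ) : ℂ) = 0 := by
      exact_mod_cast hc0
    rw [h3] at h2
    calc ∑ x ∈ univ.image fun j => ix s (val j).2.2,
          (∑ μ, (a x μ : ℂ) * ((mz ((g μ).elim [] fun j => (val j).2.1) : ℝ) : ℂ)) *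
            ((mz x : ℝ) : ℂ) =
        ∑ x ∈ univ.image fun j => ix s (val j).2.2, ∑ j with ix s (val j).2.2 = x,
          (Δ : ℂ) * (((c (e.symm j).1 * (val j).1 : ℤ) : ℂ) *
            (((mz (val j).2.1 : ℝ) : ℂ) * ((mz (ix s (val j).2.2) : ℝ) : ℂ))) := by
          refine sum_congr rfl fun x _ => ?_
          rw [hav x, sum_mul]
          refine sum_congr rfl fun j hj => ?_
          rw [mem_filter] at hj
          rw [hj.2]
          ring
      _ = ∑ j, (Δ : ℂ) * (((c (e.symm j).1 * (val j).1 : ℤ) : ℂ) *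
            (((mz (val j).2.1 : ℝ) : ℂ) * ((mz (ix s (val j).2.2) : ℝ) : ℂ))) :=
          sum_fiberwise_of_maps_to (fun j _ => mem_image_of_mem _ (mem_univ j)) _
      _ = 0 := by
          rw [← mul_sum, ← h2, mul_zero]

end Pool.Agent.X90.DC
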